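import Pool.Agent.W96.CL.Stm
set_option autoImplicit false

/-! Limits at infinity and signs of `sC` and `rC`. -/

open Polynomial Filter Topology

namespace W96CL
namespace LIMaux

/-- the closed sector -/
def Sec : Set ℂ := {y | |y.im| ≤ Real.sqrt 3 * y.re}

/-- the closed sector in the unit disc -/
def K0 : Set ℂ := Metric.closedBall 0 1 ∩ Sec

lemma isCompact_K0 : IsCompact K0 := by
  refine (isCompact_closedBall (0 : ℂ) 1).inter_right ?_
  exact isClosed_le (Complex.continuous_im.abs) (continuous_const.mul Complex.continuous_re)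

lemma zero_mem_K0 : (0 : ℂ) ∈ K0 := by
  refine ⟨?_, ?_⟩
  · simp
  · show |(0 : ℂ).im| ≤ Real.sqrt 3 * (0 : ℂ).re
    simp

lemma s3 : Real.sqrt 3 * Real.sqrt 3 = 3 := Real.mul_self_sqrt (by norm_num)

lemma s3pos : 0 < Real.sqrt 3 := Real.sqrt_pos.2 (by norm_num)

lemma trig_abs {v : ℝ} (hv : |v| ≤ Real.pi / 3) : |Real.sin v| ≤ Real.sqrt 3 * Real.cos v := by
  have hp := Real.pi_pos
  rw [Real.abs_sin_eq_sin_abs_of_abs_le_pi (by linarith), ← Real.cos_abs v]
  have h1 : Real.sin |v| ≤ Real.sin (Real.pi / 3) :=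
    Real.sin_le_sin_of_le_of_le_pi_div_two (by linarith [abs_nonneg v]) (by linarith) hv
  have h2 : Real.cos (Real.pi / 3) ≤ Real.cos |v| :=
    Real.cos_le_cos_of_nonneg_of_le_pi (abs_nonneg v) (by linarith) hv
  rw [Real.sin_pi_div_three] at h1
  rw [Real.cos_pi_div_three] at h2
  nlinarith [s3pos]

lemma trig_th {θ : ℝ} (h0 : 0 < θ) (h1 : θ < Real.pi / 3) :
    0 < Real.sin θ ∧ 1 / 2 < Real.cos θ ∧ Real.sin θ < Real.sqrt 3 * Real.cos θ := by
  have hp := Real.pi_pos
  have a1 : 0 < Real.sin θ := Real.sin_pos_of_pos_of_lt_pi h0 (by linarith)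
  have a2 : Real.sin θ < Real.sin (Real.pi / 3) :=
    Real.sin_lt_sin_of_lt_of_le_pi_div_two (by linarith) (by linarith) h1
  have a3 : Real.cos (Real.pi / 3) < Real.cos θ :=
    Real.cos_lt_cos_of_nonneg_of_le_pi h0.le (by linarith) h1
  rw [Real.sin_pi_div_three] at a2
  rw [Real.cos_pi_div_three] at a3
  refine ⟨a1, a3, ?_⟩
  nlinarith [s3pos]

lemma exp_mem_Sec {z : ℂ} (hz : |z.im| ≤ Real.pi / 3) : Complex.exp z ∈ Sec := by
  show |(Complex.exp z).im| ≤ Real.sqrt 3 * (Complex.exp z).re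
  rw [Complex.exp_im, Complex.exp_re, abs_mul, abs_of_pos (Real.exp_pos _)]
  have h1 := trig_abs hz
  have h2 := Real.exp_pos z.re
  nlinarith

lemma exp_mem_K0 {z : ℂ} (hz : |z.im| ≤ Real.pi / 3) (hr : z.re ≤ 0) : Complex.exp z ∈ K0 := by
  refine ⟨?_, exp_mem_Sec hz⟩
  rw [mem_closedBall_zero_iff, Complex.norm_exp]
  exact Real.exp_le_one_iff.2 hr

/-! ### zeros of the quadratic -/

lemma q_root (θ : ℝ) (w : ℂ) (h : 1 + 2 * Real.cos θ * w + w ^ 2 = 0) :
    w.re = -Real.cos θ ∧ (w.im = Real.sin θ ∨ w.im = -Real.sin θ) := by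
  have h1 : (w - (-Real.cos θ + Real.sin θ * Complex.I)) *
      (w - (-Real.cos θ - Real.sin θ * Complex.I)) = 0 := by
    have h2 : (Real.cos θ : ℂ) ^ 2 + (Real.sin θ : ℂ) ^ 2 = 1 := by
      have := Real.sin_sq_add_cos_sq θ
      rw [add_comm] at this
      exact_mod_cast this
    have h3 := Complex.I_sq
    linear_combination h + h2 - (Real.sin θ : ℂ) ^ 2 * h3
  rcases mul_eq_zero.1 h1 with h2 | h2
  · rw [sub_eq_zero] at h2
    constructor
    · rw [h2]
      simp only [Complex.add_re, Complex.neg_re, Complex.ofReal_re, Complex.mul_re,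
        Complex.ofReal_im, Complex.I_re, Complex.I_im]
      ring
    · left; rw [h2]
      simp only [Complex.add_im, Complex.neg_im, Complex.ofReal_re, Complex.mul_im,
        Complex.ofReal_im, Complex.I_re, Complex.I_im]
      ring
  · rw [sub_eq_zero] at h2
    constructor
    · rw [h2]
      simp only [Complex.sub_re, Complex.neg_re, Complex.ofReal_re, Complex.mul_re,
        Complex.ofReal_im, Complex.I_re, Complex.I_im]
      ring
    · right; rw [h2]
      simp only [Complex.sub_im, Complex.neg_im, Complex.ofReal_re, Complex.mul_im,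
        Complex.ofReal_im, Complex.I_re, Complex.I_im]
      ring

lemma om_re : om.re = -1 / 2 := rfl
lemma om_im : om.im = Real.sqrt 3 / 2 := rfl

lemma om_sq : om ^ 2 = ⟨-1 / 2, -(Real.sqrt 3 / 2)⟩ := by
  apply Complex.ext
  · rw [pow_two, Complex.mul_re, om_re, om_im]
    have := s3
    show (-1 / 2 : ℝ) * (-1 / 2) - Real.sqrt 3 / 2 * (Real.sqrt 3 / 2) = -1 / 2
    nlinarith
  · rw [pow_two, Complex.mul_im, om_re, om_im]
    show (-1 / 2 : ℝ) * (Real.sqrt 3 / 2) + Real.sqrt 3 / 2 * (-1 / 2) = -(Real.sqrt 3 / 2)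
    ring

lemma om_cube : om ^ 3 = 1 := by
  rw [pow_succ, om_sq]
  apply Complex.ext
  · rw [Complex.mul_re, om_re, om_im]
    have := s3
    show (-1 / 2 : ℝ) * (-1 / 2) - -(Real.sqrt 3 / 2) * (Real.sqrt 3 / 2) = 1
    nlinarith
  · rw [Complex.mul_im, om_re, om_im]
    show (-1 / 2 : ℝ) * (Real.sqrt 3 / 2) + -(Real.sqrt 3 / 2) * (-1 / 2) = 0
    ring

lemma om_ne : om ≠ 0 := by
  intro h
  have := om_cube
  rw [h] at this
  norm_num at this

lemma conj_om : starRingEnd ℂ om = om ^ 2 := by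
  rw [om_sq]
  apply Complex.ext
  · rfl
  · rfl

section nv
variable {θ : ℝ} (h0 : 0 < θ) (h1 : θ < Real.pi / 3)
include h0 h1

lemma nv1 {y : ℂ} (hy : y ∈ Sec) : 1 + 2 * Real.cos θ * y + y ^ 2 ≠ 0 := by
  intro h
  obtain ⟨h2, -⟩ := q_root θ y h
  obtain ⟨-, h3, -⟩ := trig_th h0 h1
  have h4 : |y.im| ≤ Real.sqrt 3 * y.re := hy
  have h5 := abs_nonneg y.im
  have h6 := s3pos
  rw [h2] at h4
  nlinarith

lemma nv2 {y : ℂ} (hy : y ∈ Sec) : 1 + 2 * Real.cos θ * (-(om * y)) + (-(om * y)) ^ 2 ≠ 0 := by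
  intro h
  obtain ⟨h2, h2'⟩ := q_root θ _ h
  obtain ⟨h3, h3', h3''⟩ := trig_th h0 h1
  have h4 : |y.im| ≤ Real.sqrt 3 * y.re := hy
  have h6 := s3pos
  have h7 := s3
  rw [Complex.neg_re, Complex.mul_re, om_re, om_im] at h2
  rw [Complex.neg_im, Complex.mul_im, om_re, om_im] at h2'
  have h5 := (abs_le.1 h4).1
  have e1 : y.re + Real.sqrt 3 * y.im = -2 * Real.cos θ := by linarith
  have e2 : -3 * y.re ≤ Real.sqrt 3 * y.im := by nlinarith
  have e3 : Real.cos θ ≤ y.re := by linarith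
  have e4 : Real.sqrt 3 * Real.sin θ < 3 * Real.cos θ := by nlinarith
  have e5 : Real.sqrt 3 * (y.im - Real.sqrt 3 * y.re) = Real.sqrt 3 * y.im - 3 * y.re := by
    rw [mul_sub, ← mul_assoc, h7]
  have e6 : -2 * Real.sin θ ≤ y.im - Real.sqrt 3 * y.re := by
    rcases h2' with h | h <;> linarith
  nlinarith

lemma nv3 {y : ℂ} (hy : y ∈ Sec) :
    1 + 2 * Real.cos θ * (-(om ^ 2 * y)) + (-(om ^ 2 * y)) ^ 2 ≠ 0 := by
  intro h
  obtain ⟨h2, h2'⟩ := q_root θ _ h
  obtain ⟨h3, h3', h3''⟩ := trig_th h0 h1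
  have h4 : |y.im| ≤ Real.sqrt 3 * y.re := hy
  have h6 := s3pos
  have h7 := s3
  rw [om_sq, Complex.neg_re, Complex.mul_re] at h2
  rw [om_sq, Complex.neg_im, Complex.mul_im] at h2'
  simp only at h2 h2'
  have h5 := (abs_le.1 h4).2
  have e1 : y.re - Real.sqrt 3 * y.im = -2 * Real.cos θ := by linarith
  have e2 : Real.sqrt 3 * y.im ≤ 3 * y.re := by nlinarith
  have e3 : Real.cos θ ≤ y.re := by linarith
  have e4 : Real.sqrt 3 * Real.sin θ < 3 * Real.cos θ := by nlinarith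
  have e5 : Real.sqrt 3 * (y.im + Real.sqrt 3 * y.re) = Real.sqrt 3 * y.im + 3 * y.re := by
    rw [mul_add, ← mul_assoc, h7]
  have e6 : y.im + Real.sqrt 3 * y.re ≤ 2 * Real.sin θ := by
    rcases h2' with h | h <;> linarith
  nlinarith

lemma nv4 {x : ℝ} : 1 + 2 * Real.cos θ * (om * x) + (om * x) ^ 2 ≠ 0 := by
  intro h
  obtain ⟨h2, h2'⟩ := q_root θ _ h
  obtain ⟨h3, h3', h3''⟩ := trig_th h0 h1
  rw [Complex.re_mul_ofReal, om_re] at h2
  rw [Complex.im_mul_ofReal, om_im] at h2'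
  have e1 : x = 2 * Real.cos θ := by linarith
  rw [e1] at h2'
  rcases h2' with h | h <;> nlinarith [s3pos]

end nv

/-! ### the general bound -/

lemma gen_left (M E : ℂ[X]) (hE : ∀ y ∈ K0, E.eval y ≠ 0) : ∃ K : ℝ, 0 ≤ K ∧
    ∀ z : ℂ, |z.im| ≤ Real.pi / 3 → z.re ≤ 0 →
      ‖M.eval (Complex.exp z) / E.eval (Complex.exp z) - M.eval 0 / E.eval 0‖
        ≤ K * Real.exp z.re ∧
      ‖deriv (fun z => M.eval (Complex.exp z) / E.eval (Complex.exp z)) z‖
        ≤ K * Real.exp z.re := by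
  have hE0 := hE 0 zero_mem_K0
  obtain ⟨M1, hM1⟩ : X ∣ M - C (M.eval 0 / E.eval 0) * E := by
    rw [X_dvd_iff, coeff_zero_eq_eval_zero, eval_sub, eval_mul, eval_C,
      div_mul_cancel₀ _ hE0, sub_self]
  obtain ⟨K1, hK1⟩ := isCompact_K0.exists_bound_of_continuousOn
    (f := fun y => M1.eval y / E.eval y)
    (M1.continuous.continuousOn.div E.continuous.continuousOn hE)
  obtain ⟨K2, hK2⟩ := isCompact_K0.exists_bound_of_continuousOn
    (f := fun y => (M.derivative.eval y * E.eval y - M.eval y * E.derivative.eval y) /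
      E.eval y ^ 2)
    (((M.derivative.continuous.mul E.continuous).sub
      (M.continuous.mul E.derivative.continuous)).continuousOn.div
      (E.continuous.pow 2).continuousOn (fun y hy => pow_ne_zero 2 (hE y hy)))
  have hK10 : 0 ≤ K1 := (norm_nonneg _).trans (hK1 0 zero_mem_K0)
  refine ⟨max K1 K2, hK10.trans (le_max_left _ _), fun z hz hr => ?_⟩
  have hm := exp_mem_K0 hz hr
  have hne := hE _ hm
  have hep := Real.exp_pos z.re
  constructor
  · have e1 : M.eval (Complex.exp z) / E.eval (Complex.exp z) - M.eval 0 / E.eval 0 =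
        Complex.exp z * (M1.eval (Complex.exp z) / E.eval (Complex.exp z)) := by
      have e2 := congrArg (eval (Complex.exp z)) hM1
      rw [eval_sub, eval_mul, eval_C, eval_mul, eval_X] at e2
      rw [← mul_div_assoc, ← e2]
      field_simp
    rw [e1, norm_mul, Complex.norm_exp]
    have e3 := hK1 _ hm
    have e4 := le_max_left K1 K2
    nlinarith
  · have d1 : HasDerivAt (fun z => M.eval (Complex.exp z))
        (M.derivative.eval (Complex.exp z) * Complex.exp z) z :=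
      (M.hasDerivAt (Complex.exp z)).comp z (Complex.hasDerivAt_exp z)
    have d2 : HasDerivAt (fun z => E.eval (Complex.exp z))
        (E.derivative.eval (Complex.exp z) * Complex.exp z) z :=
      (E.hasDerivAt (Complex.exp z)).comp z (Complex.hasDerivAt_exp z)
    have d3 := d1.div d2 hne
    have d4 : deriv (fun z => M.eval (Complex.exp z) / E.eval (Complex.exp z)) z =
        Complex.exp z * ((M.derivative.eval (Complex.exp z) * E.eval (Complex.exp z) -
          M.eval (Complex.exp z) * E.derivative.eval (Complex.exp z)) /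
            E.eval (Complex.exp z) ^ 2) := by
      have := d3.deriv
      rw [show (fun z => M.eval (Complex.exp z) / E.eval (Complex.exp z)) =
        ((fun z => M.eval (Complex.exp z)) / fun z => E.eval (Complex.exp z)) from rfl, this]
      ring
    rw [d4, norm_mul, Complex.norm_exp]
    have e3 := hK2 _ hm
    have e4 := le_max_right K1 K2
    nlinarith

/-! ### symmetries -/

lemma psi_inv (n : ℕ) (θ : ℝ) {x : ℂ} (hx : x ≠ 0) :
    psi n θ x⁻¹ * x ^ (2 * n) = psi n θ x := by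
  unfold psi
  rw [pow_mul, ← mul_pow]
  congr 1
  field_simp
  ring

lemma aeval_pal {n : ℕ} {t : ℝ[X]} (hd : t.natDegree ≤ 4 * n)
    (hp : ∀ k, k ≤ 4 * n → t.coeff k = t.coeff (4 * n - k)) {x : ℂ} (hx : x ≠ 0) :
    aeval x⁻¹ t * x ^ (4 * n) = aeval x t := by
  have h1 : reflect (4 * n) t = t := by
    ext k
    rw [coeff_reflect]
    rcases le_or_gt k (4 * n) with h | h
    · rw [revAt_le h, ← hp k h]
    · rw [revAt_eq_self_of_lt h]
  have : Invertible x := invertibleOfNonzero hx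
  have h2 := eval₂_reflect_mul_pow (algebraMap ℝ ℂ) x (4 * n) t hd
  rw [h1, invOf_eq_inv] at h2
  exact h2

lemma sC_neg {n : ℕ} {θ : ℝ} {t : ℝ[X]} (hr : Rel n θ t) (z : ℂ) :
    sC n θ t (-z) = sC n θ t z := by
  unfold sC
  rw [Complex.exp_neg]
  have hx := Complex.exp_ne_zero z
  have h1 := aeval_pal hr.deg hr.pal hx
  have h2 := psi_inv n θ hx
  have h3 : Complex.exp z ^ (4 * n) = (Complex.exp z ^ (2 * n)) ^ 2 := by
    rw [← pow_mul]; congr 1; ring
  rw [← mul_div_mul_right _ _ (pow_ne_zero (4 * n) hx), h1, h3, ← mul_pow, h2]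

lemma rC_neg {n : ℕ} {θ : ℝ} {Q : ℝ[X]}
    (hQ : ∀ x : ℂ, x ≠ 0 → x ^ (2 * n) * aeval x⁻¹ Q = -aeval x Q) (z : ℂ) :
    rC n θ Q (-z) = -rC n θ Q z := by
  unfold rC
  rw [Complex.exp_neg]
  have hx := Complex.exp_ne_zero z
  set x := Complex.exp z with hxd
  have a1 := hQ (-x) (neg_ne_zero.2 hx)
  have a2 := psi_inv n θ (neg_ne_zero.2 hx)
  have a3 := psi_inv n θ (x := -(om * x)) (neg_ne_zero.2 (mul_ne_zero om_ne hx))
  have a4 := psi_inv n θ (x := -(om ^ 2 * x)) (neg_ne_zero.2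
    (mul_ne_zero (pow_ne_zero 2 om_ne) hx))
  have b1 : (-x)⁻¹ = -x⁻¹ := inv_neg
  have c1 : om⁻¹ = om ^ 2 := by
    apply inv_eq_of_mul_eq_one_right
    rw [← pow_succ', om_cube]
  have c2 : (om ^ 2)⁻¹ = om := by
    rw [← c1, inv_inv]
  have b3 : (-(om * x))⁻¹ = -(om ^ 2 * x⁻¹) := by
    rw [inv_neg, mul_inv, c1]
  have b4 : (-(om ^ 2 * x))⁻¹ = -(om * x⁻¹) := by
    rw [inv_neg, mul_inv, c2]
  rw [b1] at a1 a2
  rw [b3] at a3
  rw [b4] at a4
  have e0 : (-x) ^ (2 * n) = x ^ (2 * n) := by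
    rw [pow_mul, pow_mul, neg_sq]
  have e1 : (-(om * x)) ^ (2 * n) * (-(om ^ 2 * x)) ^ (2 * n) = x ^ (2 * n) * x ^ (2 * n) := by
    rw [← mul_pow, ← mul_pow]
    have : -(om * x) * -(om ^ 2 * x) = om ^ 3 * (x * x) := by ring
    rw [this, om_cube, one_mul]
  have hk : x ^ (2 * n) * x ^ (2 * n) ≠ 0 :=
    mul_ne_zero (pow_ne_zero _ hx) (pow_ne_zero _ hx)
  rw [← mul_div_mul_right _ _ hk]
  rw [e0] at a1 a2
  have n1 : (Real.sqrt 3 : ℂ) * aeval (-x⁻¹) Q * psi n θ (-x⁻¹) * (x ^ (2 * n) * x ^ (2 * n)) =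
      -((Real.sqrt 3 : ℂ) * aeval (-x) Q * psi n θ (-x)) := by
    rw [← a2]
    linear_combination (Real.sqrt 3 : ℂ) * psi n θ (-x⁻¹) * x ^ (2 * n) * a1
  have n2 : psi n θ (-(om * x⁻¹)) * psi n θ (-(om ^ 2 * x⁻¹)) * (x ^ (2 * n) * x ^ (2 * n)) =
      psi n θ (-(om * x)) * psi n θ (-(om ^ 2 * x)) := by
    rw [← a3, ← a4, ← e1]
    ring
  rw [n1, n2, neg_div]

/-! ### real points -/

lemma aeval_real (t : ℝ[X]) (x : ℝ) : aeval (x : ℂ) t = ((t.eval x : ℝ) : ℂ) := by
  rw [← coe_aeval_eq_eval]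
  exact (aeval_algebraMap_apply ℂ x t)

lemma psi_real (n : ℕ) (θ x : ℝ) :
    psi n θ (x : ℂ) = (((1 + 2 * Real.cos θ * x + x ^ 2) ^ n : ℝ) : ℂ) := by
  unfold psi
  push_cast
  rfl

lemma psi_conj (n : ℕ) (θ : ℝ) (x : ℂ) :
    psi n θ (starRingEnd ℂ x) = starRingEnd ℂ (psi n θ x) := by
  unfold psi
  simp only [map_pow, map_add, map_mul, map_one, Complex.conj_ofReal, map_ofNat]

/-- a continuous function without zeros on `[a,b]`, negative at `a`, is negative at `b` -/
lemma neg_of_ivt (P : ℝ[X]) {a b : ℝ} (hab : a ≤ b) (ha : P.eval a < 0)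
    (h : ∀ x ∈ Set.Icc a b, P.eval x ≠ 0) : P.eval b < 0 := by
  by_contra hc
  push Not at hc
  obtain ⟨x, hx, hx'⟩ := intermediate_value_Icc hab P.continuous.continuousOn ⟨ha.le, hc⟩
  exact h x hx hx'

lemma neg_of_ivt' (P : ℝ[X]) {a b : ℝ} (hab : a ≤ b) (hb : P.eval b < 0)
    (h : ∀ x ∈ Set.Icc a b, P.eval x ≠ 0) : P.eval a < 0 := by
  by_contra hc
  push Not at hc
  obtain ⟨x, hx, hx'⟩ := intermediate_value_Icc' hab P.continuous.continuousOn ⟨hb.le, hc⟩
  exact h x hx hx'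

end LIMaux

open LIMaux

theorem cl_lim (hc : S_cons) (hr : S_rs) : S_lim := by
  intro n θ t Q z0 h
  obtain ⟨-, -, -, -, -, -, -, hre⟩ := hr n θ t Q z0 h
  obtain ⟨-, hQinv, -, -⟩ := hc n θ t Q h.n1 h.th0 h.th1.le h.rel h.p1
  have hz0 := h.z0pos
  obtain ⟨hsin, hcos, hsc⟩ := trig_th h.th0 h.th1
  -- signs of `t`
  obtain ⟨t1, ht1, ht1'⟩ := h.tfac
  have ht1ne : ∀ x : ℝ, 0 < x → t1.eval x ≠ 0 := by
    intro x hx hx0
    apply ht1' (Real.log x : ℂ)
    · simp only [Complex.ofReal_im, abs_zero]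
      positivity
    · rw [← Complex.ofReal_exp, Real.exp_log hx, aeval_real, hx0, Complex.ofReal_zero]
  have ht10 : t1.eval 0 = -2 := by
    have h1 := h.rel.zero
    rw [coeff_zero_eq_eval_zero, ht1] at h1
    simp only [eval_mul, eval_sub, eval_X, eval_C, zero_sub] at h1
    have h2 : -Real.exp z0 * -Real.exp (-z0) = 1 := by
      rw [neg_mul_neg, ← Real.exp_add, add_neg_cancel, Real.exp_zero]
    rw [h2, one_mul] at h1
    exact h1
  have ht1neg : ∀ x : ℝ, 0 ≤ x → t1.eval x < 0 := by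
    intro x hx
    refine neg_of_ivt t1 hx (by rw [ht10]; norm_num) fun y hy => ?_
    rcases hy.1.lt_or_eq with h1 | h1
    · exact ht1ne y h1
    · rw [← h1, ht10]; norm_num
  have hteval : ∀ x : ℝ, t.eval x = (x - Real.exp z0) * (x - Real.exp (-z0)) * t1.eval x := by
    intro x
    conv_lhs => rw [ht1]
    simp only [eval_mul, eval_sub, eval_X, eval_C]
  have hzz : Real.exp (-z0) < Real.exp z0 := Real.exp_lt_exp.2 (by linarith)
  have htpos : ∀ u : ℝ, |u| < z0 → 0 < t.eval (Real.exp u) := by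
    intro u hu
    rw [hteval]
    obtain ⟨h1, h2⟩ := abs_lt.1 hu
    have h3 : Real.exp u < Real.exp z0 := Real.exp_lt_exp.2 h2
    have h4 : Real.exp (-z0) < Real.exp u := Real.exp_lt_exp.2 h1
    have h5 := ht1neg (Real.exp u) (Real.exp_pos u).le
    have h6 : (Real.exp u - Real.exp z0) * (Real.exp u - Real.exp (-z0)) < 0 :=
      mul_neg_of_neg_of_pos (by linarith) (by linarith)
    exact mul_pos_of_neg_of_neg h6 h5
  have htneg : ∀ u : ℝ, z0 < |u| → t.eval (Real.exp u) < 0 := by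
    intro u hu
    rw [hteval]
    have h5 := ht1neg (Real.exp u) (Real.exp_pos u).le
    refine mul_neg_of_pos_of_neg ?_ h5
    rcases lt_abs.1 hu with h1 | h1
    · have h3 : Real.exp z0 < Real.exp u := Real.exp_lt_exp.2 h1
      exact mul_pos (by linarith) (by linarith)
    · have h3 : Real.exp u < Real.exp (-z0) := Real.exp_lt_exp.2 (by linarith)
      exact mul_pos_of_neg_of_neg (by linarith) (by linarith)
  -- `sC` on the real line
  have hphi : ∀ u : ℝ, 0 < (1 + 2 * Real.cos θ * Real.exp u + Real.exp u ^ 2) ^ n := by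
    intro u
    have := Real.exp_pos u
    positivity
  have hsre : ∀ u : ℝ, (sC n θ t u).re =
      t.eval (Real.exp u) / ((1 + 2 * Real.cos θ * Real.exp u + Real.exp u ^ 2) ^ n) ^ 2 := by
    intro u
    unfold sC
    rw [← Complex.ofReal_exp, aeval_real, psi_real, ← Complex.ofReal_pow, ← Complex.ofReal_div,
      Complex.ofReal_re]
  -- zeros of `Q`
  obtain ⟨Q1, hQ1, hQ1'⟩ := h.Qfac
  have hQzero : ∀ z : ℂ, aeval z Q = 0 → z = -1 ∨ ∃ a : ℝ, 0 < a ∧ a < Real.exp z0 ∧ z = a := by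
    intro z hz
    rw [hQ1, map_mul, map_add, aeval_X, map_one] at hz
    rcases mul_eq_zero.1 hz with h1 | h1
    · left; exact eq_neg_of_add_eq_zero_left h1
    · right; exact hQ1' z h1
  have hQ0 : Q.eval 0 = -1 := by
    rw [← coeff_zero_eq_eval_zero]; exact h.p1.zero
  have hQinvR : ∀ x : ℝ, x ≠ 0 → x ^ (2 * n) * Q.eval x⁻¹ = -Q.eval x := by
    intro x hx
    have h1 := hQinv (x : ℂ) (by exact_mod_cast hx)
    rw [← Complex.ofReal_inv, aeval_real, aeval_real] at h1
    exact_mod_cast h1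
  have hQR : ∀ x : ℝ, Q.eval x = 0 → x = -1 ∨ (0 < x ∧ x < Real.exp z0) := by
    intro x hx
    have h1 : aeval (x : ℂ) Q = 0 := by rw [aeval_real, hx, Complex.ofReal_zero]
    rcases hQzero _ h1 with h2 | ⟨a, ha, ha', h2⟩
    · left; exact_mod_cast h2
    · right
      have : x = a := by exact_mod_cast h2
      rw [this]; exact ⟨ha, ha'⟩
  have hQneg : ∀ x : ℝ, 1 < x → 0 < Q.eval (-x) := by
    intro x hx
    have hx0 : 0 < x := by linarith
    have h1 := hQinvR (-x) (by linarith)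
    have h2 : Q.eval (-x)⁻¹ < 0 := by
      have h3 : (-x)⁻¹ = -x⁻¹ := inv_neg
      rw [h3]
      have h4 : 0 < x⁻¹ := inv_pos.2 hx0
      have h5 : x⁻¹ < 1 := inv_lt_one_of_one_lt₀ hx
      refine neg_of_ivt' Q (b := 0) (by linarith) (by rw [hQ0]; norm_num) fun y hy hy0 => ?_
      rcases hQR y hy0 with h6 | h6
      · linarith [hy.1]
      · linarith [hy.2, h6.1]
    have h3 : 0 < (-x) ^ (2 * n) := by
      rw [pow_mul, neg_sq]; positivity
    nlinarith
  have hQpos : ∀ y : ℝ, Real.exp z0 ≤ y → 0 < Q.eval y := by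
    intro y hy
    have hy0 : 0 < y := (Real.exp_pos z0).trans_le hy
    have h1 := hQinvR y hy0.ne'
    have h2 : Q.eval y⁻¹ < 0 := by
      refine neg_of_ivt Q (a := 0) (inv_pos.2 hy0).le (by rw [hQ0]; norm_num) fun w hw hw0 => ?_
      rcases hw.1.lt_or_eq with h3 | h3
      · have h4 := hQinvR w⁻¹ (inv_pos.2 h3).ne'
        rw [inv_inv, hw0, mul_zero, eq_comm, neg_eq_zero] at h4
        have h5 : Real.exp z0 ≤ w⁻¹ := by
          have h6 : y ≤ w⁻¹ := by
            rw [le_inv_comm₀ hy0 h3]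
            exact hw.2
          exact hy.trans h6
        rcases hQR _ h4 with h6 | h6
        · have := inv_pos.2 h3
          linarith
        · linarith [h6.2]
      · rw [← h3, hQ0] at hw0
        norm_num at hw0
    have h3 : 0 < y ^ (2 * n) := by positivity
    nlinarith
  refine ⟨?_, ?_, ?_, ?_, ?_, ?_, ?_⟩
  · -- limits
    obtain ⟨Ks, hKs0, hKs⟩ := gen_left (t.map (algebraMap ℝ ℂ))
      (((1 + 2 * C (Real.cos θ : ℂ) * X + X ^ 2) ^ n) ^ 2) (fun y hy => by
        simp only [eval_pow, eval_add, eval_mul, eval_one, eval_C, eval_X, eval_ofNat]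
        exact pow_ne_zero _ (pow_ne_zero _ (nv1 h.th0 h.th1 hy.2)))
    obtain ⟨Kr, hKr0, hKr⟩ := gen_left
      (C (Real.sqrt 3 : ℂ) * (Q.map (algebraMap ℝ ℂ)).comp (-X) *
        (1 + 2 * C (Real.cos θ : ℂ) * (-X) + (-X) ^ 2) ^ n)
      ((1 + 2 * C (Real.cos θ : ℂ) * (-(C om * X)) + (-(C om * X)) ^ 2) ^ n *
        (1 + 2 * C (Real.cos θ : ℂ) * (-(C (om ^ 2) * X)) + (-(C (om ^ 2) * X)) ^ 2) ^ n)
      (fun y hy => by
        simp only [eval_pow, eval_add, eval_mul, eval_one, eval_C, eval_X, eval_neg,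
          eval_ofNat]
        exact mul_ne_zero (pow_ne_zero _ (nv2 h.th0 h.th1 hy.2))
          (pow_ne_zero _ (nv3 h.th0 h.th1 hy.2)))
    have fs : (fun z => (t.map (algebraMap ℝ ℂ)).eval (Complex.exp z) /
        (((1 + 2 * C (Real.cos θ : ℂ) * X + X ^ 2) ^ n) ^ 2 : ℂ[X]).eval (Complex.exp z)) =
        sC n θ t := by
      funext z
      unfold sC psi
      rw [eval_map_algebraMap]
      simp only [eval_pow, eval_add, eval_mul, eval_one, eval_C, eval_X, eval_ofNat]
    have fr : (fun z => (C (Real.sqrt 3 : ℂ) * (Q.map (algebraMap ℝ ℂ)).comp (-X) *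
        (1 + 2 * C (Real.cos θ : ℂ) * (-X) + (-X) ^ 2) ^ n : ℂ[X]).eval (Complex.exp z) /
      ((1 + 2 * C (Real.cos θ : ℂ) * (-(C om * X)) + (-(C om * X)) ^ 2) ^ n *
        (1 + 2 * C (Real.cos θ : ℂ) * (-(C (om ^ 2) * X)) + (-(C (om ^ 2) * X)) ^ 2) ^ n :
          ℂ[X]).eval (Complex.exp z)) = rC n θ Q := by
      funext z
      unfold rC psi
      simp only [eval_pow, eval_add, eval_mul, eval_one, eval_C, eval_X, eval_neg,
          eval_ofNat, eval_comp, eval_map_algebraMap]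
    have cs : (t.map (algebraMap ℝ ℂ)).eval 0 /
        (((1 + 2 * C (Real.cos θ : ℂ) * X + X ^ 2) ^ n) ^ 2 : ℂ[X]).eval 0 = -2 := by
      rw [← coeff_zero_eq_eval_zero, coeff_map, h.rel.zero]
      simp
    have cr : (C (Real.sqrt 3 : ℂ) * (Q.map (algebraMap ℝ ℂ)).comp (-X) *
        (1 + 2 * C (Real.cos θ : ℂ) * (-X) + (-X) ^ 2) ^ n : ℂ[X]).eval 0 /
      ((1 + 2 * C (Real.cos θ : ℂ) * (-(C om * X)) + (-(C om * X)) ^ 2) ^ n *
        (1 + 2 * C (Real.cos θ : ℂ) * (-(C (om ^ 2) * X)) + (-(C (om ^ 2) * X)) ^ 2) ^ n :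
          ℂ[X]).eval 0 = -(Real.sqrt 3 : ℂ) := by
      have hQ00 : (Q.map (algebraMap ℝ ℂ)).eval 0 = -1 := by
        rw [← coeff_zero_eq_eval_zero, coeff_map, h.p1.zero]
        simp
      simp only [eval_pow, eval_add, eval_mul, eval_one, eval_C, eval_X, eval_neg,
          eval_ofNat, eval_comp, neg_zero, hQ00, mul_zero]
      simp
    rw [cs, fs] at hKs
    rw [cr, fr] at hKr
    have fs' := fun z => congrFun fs z
    have fr' := fun z => congrFun fr z
    simp only [fs'] at hKs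
    simp only [fr'] at hKr
    have dsn : ∀ z : ℂ, ‖deriv (sC n θ t) z‖ = ‖deriv (sC n θ t) (-z)‖ := by
      intro z
      have h1 : (fun z => sC n θ t (-z)) = sC n θ t := funext (sC_neg h.rel)
      have h2 := deriv_comp_neg (sC n θ t) z
      rw [h1] at h2
      rw [h2, norm_neg]
    have drn : ∀ z : ℂ, ‖deriv (rC n θ Q) z‖ = ‖deriv (rC n θ Q) (-z)‖ := by
      intro z
      have h1 : (fun z => rC n θ Q (-z)) = fun z => -rC n θ Q z := funext (rC_neg hQinv)
      have h2 := deriv_comp_neg (rC n θ Q) z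
      rw [h1, deriv.fun_neg, neg_inj] at h2
      rw [h2]
    refine ⟨max Ks Kr, fun z hz => ?_⟩
    have hle1 := le_max_left Ks Kr
    have hle2 := le_max_right Ks Kr
    have hz' : |(-z).im| ≤ Real.pi / 3 := by rw [Complex.neg_im, abs_neg]; exact hz
    have hep := Real.exp_pos (-|z.re|)
    have A : ‖sC n θ t z + 2‖ ≤ Ks * Real.exp (-|z.re|) ∧
        ‖deriv (sC n θ t) z‖ ≤ Ks * Real.exp (-|z.re|) := by
      rcases le_total z.re 0 with h1 | h1
      · have h2 := hKs z hz h1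
        rw [abs_of_nonpos h1, neg_neg]
        rw [sub_neg_eq_add] at h2
        exact h2
      · have h2 := hKs (-z) hz' (by rw [Complex.neg_re]; linarith)
        rw [abs_of_nonneg h1, dsn z]
        rw [sub_neg_eq_add, sC_neg h.rel, Complex.neg_re] at h2
        exact h2
    refine ⟨A.1.trans (mul_le_mul_of_nonneg_right hle1 hep.le),
      A.2.trans (mul_le_mul_of_nonneg_right hle1 hep.le), fun h1 => ?_⟩
    have h2 := hKr (-z) hz' (by rw [Complex.neg_re]; linarith)
    rw [rC_neg hQinv, Complex.neg_re, ← drn z] at h2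
    have h3 : -rC n θ Q z - -(Real.sqrt 3 : ℂ) = -(rC n θ Q z - (Real.sqrt 3 : ℂ)) := by ring
    rw [h3, norm_neg] at h2
    have hep' := Real.exp_pos (-z.re)
    exact ⟨h2.1.trans (mul_le_mul_of_nonneg_right hle2 hep'.le),
      h2.2.trans (mul_le_mul_of_nonneg_right hle2 hep'.le)⟩
  · intro u hu
    rw [hsre]
    exact div_pos (htpos u hu) (pow_pos (hphi u) 2)
  · intro u hu
    rw [hsre]
    exact div_neg_of_neg_of_pos (htneg u hu) (pow_pos (hphi u) 2)
  · intro u
    rw [hsre, div_lt_one (pow_pos (hphi u) 2)]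
    have h1 := h.p1.kQ (Real.exp u : ℂ)
    have h2 : om ^ 2 * (Real.exp u : ℂ) = starRingEnd ℂ (om * (Real.exp u : ℂ)) := by
      rw [map_mul, conj_om, Complex.conj_ofReal]
    have h3 : aeval (om * (Real.exp u : ℂ)) Q ≠ 0 := by
      intro h4
      have h5 : (om * (Real.exp u : ℂ)).im ≠ 0 := by
        rw [Complex.im_mul_ofReal, om_im]
        have := s3pos
        have := Real.exp_pos u
        positivity
      rcases hQzero _ h4 with h6 | ⟨a, -, -, h6⟩
      · rw [h6] at h5; simp at h5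
      · rw [h6] at h5; simp at h5
    rw [h2, aeval_conj, mul_assoc, Complex.mul_conj, aeval_real, aeval_real] at h1
    have h4 : (phi n θ).eval (Real.exp u) - t.eval (Real.exp u) =
        3 * Complex.normSq (aeval (om * (Real.exp u : ℂ)) Q) := by
      exact_mod_cast h1
    have h5 := Complex.normSq_pos.2 h3
    have h6 : (phi n θ).eval (Real.exp u) =
        ((1 + 2 * Real.cos θ * Real.exp u + Real.exp u ^ 2) ^ n) ^ 2 := by
      unfold phi
      simp only [eval_pow, eval_add, eval_mul, eval_one, eval_C, eval_X]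
      rw [← pow_mul]
      congr 1
      ring
    rw [← h6]
    linarith
  · intro u hu
    have hx : 1 < Real.exp u := Real.one_lt_exp_iff.2 hu
    have h1 := hQneg _ hx
    have h2 : 0 < (1 + 2 * Real.cos θ * (-Real.exp u) + (-Real.exp u) ^ 2) ^ n := by
      apply pow_pos
      have h3 := Real.sin_sq_add_cos_sq θ
      nlinarith [sq_nonneg (Real.exp u - Real.cos θ)]
    have h3 : psi n θ (-(om ^ 2 * (Real.exp u : ℂ))) =
        starRingEnd ℂ (psi n θ (-(om * (Real.exp u : ℂ)))) := by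
      rw [← psi_conj, map_neg, map_mul, conj_om, Complex.conj_ofReal]
    have h4 : psi n θ (-(om * (Real.exp u : ℂ))) ≠ 0 := by
      have h5 : (Real.exp u : ℂ) ∈ Sec := by
        have := exp_mem_Sec (z := (u : ℂ)) (by simp only [Complex.ofReal_im, abs_zero]; positivity)
        rwa [← Complex.ofReal_exp] at this
      exact pow_ne_zero _ (nv2 h.th0 h.th1 h5)
    have h5 := Complex.normSq_pos.2 h4
    have h6 : rC n θ Q u = ((Real.sqrt 3 * Q.eval (-Real.exp u) *
        (1 + 2 * Real.cos θ * (-Real.exp u) + (-Real.exp u) ^ 2) ^ n /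
          Complex.normSq (psi n θ (-(om * (Real.exp u : ℂ)))) : ℝ) : ℂ) := by
      unfold rC
      rw [← Complex.ofReal_exp, h3, Complex.mul_conj, ← Complex.ofReal_neg, aeval_real, psi_real]
      push_cast
      rfl
    rw [h6, Complex.ofReal_re]
    have := s3pos
    positivity
  · intro u hu
    rw [hre u]
    have h1 : t.eval (Real.exp u) < 0 := htneg u (lt_of_lt_of_le hu (le_abs_self u))
    have h2 : 0 < Q.eval (Real.exp u) := hQpos _ (Real.exp_le_exp.2 hu.le)
    have h3 : 0 < (psi n θ (Real.exp u)).re := by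
      rw [psi_real, Complex.ofReal_re]
      exact hphi u
    have h4 : psi n θ (om * Real.exp u) ≠ 0 :=
      pow_ne_zero _ (nv4 h.th0 h.th1)
    have h5 : 0 < ‖psi n θ (om * Real.exp u)‖ := norm_pos_iff.2 h4
    have h6 : 0 < -(Real.sqrt 3 / 2) * (t.eval (Real.exp u) * Q.eval (Real.exp u)) := by
      have := s3pos
      have h7 : t.eval (Real.exp u) * Q.eval (Real.exp u) < 0 := mul_neg_of_neg_of_pos h1 h2
      nlinarith
    exact div_pos h6 (mul_pos h3 (pow_pos h5 2))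
  · rw [hre z0, hteval]
    simp

end W96CL
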